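import Pool.Agent.Results.MP_de1370_an.CwkFailsSC

set_option autoImplicit false

/-!
# Property (SC) fails for tetrahedra in large Banach spaces

The proof of the starting result `CwkFailsSC` (a Hilbert space of density `ℵ₃`), for Banach spaces
with a biorthogonal system `(e i, f i)` such that every functional is nonzero at only countably
many `e i`. The combinatorial lemmas `free_triple` and `exists_disjoint_family` and the
countable-cocountable probability space are those of the starting file.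
-/

open MeasureTheory Set Topology Cardinal

namespace Pool.Agent.Y175.SC

open Pool.Agent.Results.MP_de1370_an.CwkFailsSC (ccMS ccMeasure ccMeasure_prob ccMeasure_complete
  free_triple exists_disjoint_family)

universe u

/-- A function with values in a real Banach space is scalarly measurable when its composition with
every continuous linear functional is measurable. -/
def ScalarlyMeasurable {Ω : Type} {X : Type u} [MeasurableSpace Ω] [NormedAddCommGroup X]
    [NormedSpace ℝ X] (f : Ω → X) : Prop :=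
  ∀ φ : StrongDual ℝ X, Measurable (fun t => φ (f t))

/-- A multi-function is scalarly measurable when it meets every open half-space in a measurable
set of parameters. -/
def ScalarlyMeasurableMulti {Ω : Type} {X : Type u} [MeasurableSpace Ω] [NormedAddCommGroup X]
    [NormedSpace ℝ X] (F : Ω → Set X) : Prop :=
  ∀ φ : StrongDual ℝ X, φ ≠ 0 → ∀ a : ℝ, MeasurableSet {t | (F t ∩ {x | a < φ x}).Nonempty}

section hilbert

variable {H : Type u} {Γ : Type} [NormedAddCommGroup H] [NormedSpace ℝ H] [DecidableEq Γ]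

/-- generators of the two simplices attached to a finite index set -/
def gens (e : Γ → H) : Bool → Finset Γ → Set H
  | false, T => insert 0 (e '' (T : Set Γ))
  | true, T => insert (∑ i ∈ T, e i) ((fun i => (∑ j ∈ T, e j) - e i) '' (T : Set Γ))

/-- the two simplices attached to a finite index set -/
def simp' (e : Γ → H) (b : Bool) (T : Finset Γ) : Set H := convexHull ℝ (gens e b T)

lemma gens_finite (e : Γ → H) (b : Bool) (T : Finset Γ) : (gens e b T).Finite := by
  cases b
  · exact (T.finite_toSet.image _).insert _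
  · exact (T.finite_toSet.image _).insert _

lemma gens_nonempty (e : Γ → H) (b : Bool) (T : Finset Γ) : (gens e b T).Nonempty := by
  cases b
  · exact ⟨0, mem_insert _ _⟩
  · exact ⟨_, mem_insert _ _⟩

/-- the convex hulls of at most four points -/
def tetra (X : Type u) [NormedAddCommGroup X] [NormedSpace ℝ X] : Set (Set X) :=
  {C | ∃ s : Set X, s.Finite ∧ s.Nonempty ∧ s.ncard ≤ 4 ∧ C = convexHull ℝ s}

lemma simp_tetra (e : Γ → H) (b : Bool) (T : Finset Γ) (hT : T.card = 3) :
    simp' e b T ∈ tetra H := by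
  refine ⟨gens e b T, gens_finite e b T, gens_nonempty e b T, ?_, rfl⟩
  cases b
  · refine (Set.ncard_insert_le _ _).trans ?_
    have := Set.ncard_image_le (f := e) T.finite_toSet
    rw [Set.ncard_coe_finset, hT] at this
    omega
  · refine (Set.ncard_insert_le _ _).trans ?_
    have := Set.ncard_image_le (f := fun i => (∑ j ∈ T, e j) - e i) T.finite_toSet
    rw [Set.ncard_coe_finset, hT] at this
    omega

/-- values of a functional vanishing on all e_i with i in T other than γ -/
lemma simp_values (e : Γ → H) (b : Bool) (T : Finset Γ) (γ : Γ) (hγ : γ ∈ T)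
    (φ : StrongDual ℝ H) (hφ : ∀ i ∈ T, i ≠ γ → φ (e i) = 0) (a : ℝ) :
    (simp' e b T ∩ {x | a < φ x}).Nonempty ↔ a < max 0 (φ (e γ)) := by
  have hsum : φ (∑ i ∈ T, e i) = φ (e γ) := by
    rw [map_sum]
    rw [Finset.sum_eq_single γ]
    · intro i hi hne; exact hφ i hi hne
    · intro h; exact absurd hγ h
  have hgen : ∀ x ∈ gens e b T, φ x ≤ max 0 (φ (e γ)) := by
    intro x hx
    cases b
    · rcases hx with rfl | ⟨i, hi, rfl⟩
      · simp
      · by_cases h : i = γ
        · rw [h]; exact le_max_right _ _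
        · rw [hφ i hi h]; exact le_max_left _ _
    · rcases hx with rfl | ⟨i, hi, rfl⟩
      · rw [hsum]; exact le_max_right _ _
      · show φ ((∑ j ∈ T, e j) - e i) ≤ _
        rw [map_sub, hsum]
        by_cases h : i = γ
        · rw [h]; simp
        · rw [hφ i hi h]; simp
  have hall : ∀ x ∈ simp' e b T, φ x ≤ max 0 (φ (e γ)) := by
    have hcv : Convex ℝ {x | φ x ≤ max 0 (φ (e γ))} := convex_halfSpace_le φ.isLinear _
    exact fun x hx => (convexHull_min (fun y hy => hgen y hy) hcv) hx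
  constructor
  · rintro ⟨x, hx, hx2⟩
    exact lt_of_lt_of_le hx2 (hall x hx)
  · intro ha
    have h0 : ∃ x ∈ gens e b T, φ x = 0 := by
      cases b
      · exact ⟨0, mem_insert _ _, map_zero _⟩
      · refine ⟨_, mem_insert_of_mem _ ⟨γ, hγ, rfl⟩, ?_⟩
        show φ ((∑ j ∈ T, e j) - e γ) = 0
        rw [map_sub, hsum, sub_self]
    have h1 : ∃ x ∈ gens e b T, φ x = φ (e γ) := by
      cases b
      · exact ⟨e γ, mem_insert_of_mem _ ⟨γ, hγ, rfl⟩, rfl⟩
      · exact ⟨_, mem_insert _ _, hsum⟩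
    rcases lt_max_iff.mp ha with h | h
    · obtain ⟨x, hx, hx2⟩ := h0
      exact ⟨x, subset_convexHull _ _ hx, by show a < φ x; rw [hx2]; exact h⟩
    · obtain ⟨x, hx, hx2⟩ := h1
      exact ⟨x, subset_convexHull _ _ hx, by show a < φ x; rw [hx2]; exact h⟩
lemma sum_coord (e : Γ → H) (f : Γ → StrongDual ℝ H)
    (hef : ∀ i j, f i (e j) = if i = j then 1 else 0) (T : Finset Γ) (hT : T.card = 3)
    (x : H) : (x ∈ simp' e false T → ∑ i ∈ T, f i x ≤ 1) ∧
      (x ∈ simp' e true T → 2 ≤ ∑ i ∈ T, f i x) := by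
  set G : StrongDual ℝ H := ∑ i ∈ T, f i with hG
  have hlin : ∀ x, ∑ i ∈ T, f i x = G x := by
    intro x
    rw [hG]
    simp
  have hee : ∀ i ∈ T, G (e i) = 1 := by
    intro i hi
    rw [← hlin]
    rw [Finset.sum_eq_single i]
    · rw [hef]; simp
    · intro j _ hj
      rw [hef]; simp [hj]
    · intro h; exact absurd hi h
  have hes : G (∑ i ∈ T, e i) = 3 := by
    rw [map_sum, Finset.sum_congr rfl hee]
    simp [hT]
  constructor
  · intro hx
    rw [hlin]
    have hcv : Convex ℝ {x | G x ≤ 1} := convex_halfSpace_le G.isLinear _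
    refine (convexHull_min ?_ hcv) hx
    rintro y (rfl | ⟨i, hi, rfl⟩)
    · show G 0 ≤ 1
      rw [map_zero]; norm_num
    · show G (e i) ≤ 1
      rw [hee i hi]
  · intro hx
    rw [hlin]
    have hcv : Convex ℝ {x | 2 ≤ G x} := convex_halfSpace_ge G.isLinear _
    refine (convexHull_min ?_ hcv) hx
    rintro y (rfl | ⟨i, hi, rfl⟩)
    · show 2 ≤ G (∑ i ∈ T, e i)
      rw [hes]; norm_num
    · show 2 ≤ G ((∑ j ∈ T, e j) - e i)
      rw [map_sub, hes, hee i hi]; norm_num

end hilbert

section main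

variable {H : Type u} {Γ : Type} [NormedAddCommGroup H] [NormedSpace ℝ H] [DecidableEq Γ]

/-- key lemma: under the (SC)-type hypothesis on the countable-cocountable space, for every
measurable set B of reals, either B or its complement is avoided off a countable set of indices -/
lemma key (e : Γ → H) (f : Γ → StrongDual ℝ H)
    (hN0 : ∀ φ : StrongDual ℝ H, {i | φ (e i) ≠ 0}.Countable) (O : Type) [LinearOrder O]
    [WellFoundedLT O] (hc : ∀ t : O, (Set.Iio t).Countable) [Uncountable O]
    (ψ : Set H → H)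
    (hSC : letI := ccMS (O × Bool)
      ∀ F : O × Bool → Set H, (∀ t, F t ∈ tetra H) → ScalarlyMeasurableMulti F →
        ScalarlyMeasurable (fun t => ψ (F t)))
    (γ : Γ) (B : Set ℝ) (hB : MeasurableSet B) :
    (∃ E : Set Γ, E.Countable ∧ ∀ (b : Bool) (T : Finset Γ), T.card = 3 → γ ∈ T →
      Disjoint ((T.erase γ : Finset Γ) : Set Γ) E → f γ (ψ (simp' e b T)) ∉ B) ∨
    (∃ E : Set Γ, E.Countable ∧ ∀ (b : Bool) (T : Finset Γ), T.card = 3 → γ ∈ T →
      Disjoint ((T.erase γ : Finset Γ) : Set Γ) E → f γ (ψ (simp' e b T)) ∈ B) := by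
  by_contra hcon
  push Not at hcon
  obtain ⟨h1, h2⟩ := hcon
  let P := {p : (Bool × Finset Γ) × (Bool × Finset Γ) // (p.1.2.card = 3 ∧ γ ∈ p.1.2) ∧
    (p.2.2.card = 3 ∧ γ ∈ p.2.2) ∧
    f γ (ψ (simp' e p.1.1 p.1.2)) ∈ B ∧ f γ (ψ (simp' e p.2.1 p.2.2)) ∉ B}
  let D : P → Set Γ := fun p => ((p.1.1.2.erase γ : Finset Γ) : Set Γ) ∪
    ((p.1.2.2.erase γ : Finset Γ) : Set Γ)
  have hD : ∀ p, (D p).Countable := fun p =>
    (Finset.countable_toSet _).union (Finset.countable_toSet _)
  have hex : ∀ E : Set Γ, E.Countable → ∃ p, Disjoint (D p) E := by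
    intro E hE
    obtain ⟨b, T, hT0, hT1, hT2, hT3⟩ := h1 E hE
    obtain ⟨b', T', hT0', hT1', hT2', hT3'⟩ := h2 E hE
    refine ⟨⟨((b, T), (b', T')), ⟨hT0, hT1⟩, ⟨hT0', hT1'⟩, hT3, hT3'⟩, ?_⟩
    exact Set.disjoint_union_left.mpr ⟨hT2, hT2'⟩
  obtain ⟨p, hp⟩ := exists_disjoint_family D hD hex O hc
  let F : O × Bool → Set H := fun x => match x with
    | (t, false) => simp' e (p t).1.1.1 (p t).1.1.2
    | (t, true) => simp' e (p t).1.2.1 (p t).1.2.2
  letI := ccMS (O × Bool)
  have hFm : ScalarlyMeasurableMulti F := by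
    intro φ _ a
    set N : Set Γ := {i | φ (e i) ≠ 0} with hN
    have hNc : N.Countable := hN0 φ
    set X : Set O := {t | ¬ Disjoint (D (p t)) N} with hX
    have hXc : X.Countable := by
      have hch : ∀ t : X, ∃ i, i ∈ D (p t.1) ∧ i ∈ N := by
        intro t
        exact Set.not_disjoint_iff.mp t.2
      choose g hg1 hg2 using hch
      have hinj : Function.Injective (fun t : X => (⟨g t, hg2 t⟩ : N)) := by
        intro s t hst
        by_contra hne
        have hne' : s.1 ≠ t.1 := fun h => hne (Subtype.ext h)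
        have h3 : g s = g t := congrArg Subtype.val hst
        have h4 := hg1 s
        rw [h3] at h4
        exact Set.disjoint_left.mp (hp s.1 t.1 hne') h4 (hg1 t)
      haveI : Countable N := hNc.to_subtype
      exact Set.countable_coe_iff.mp hinj.countable
    have hXc' : (X ×ˢ (Set.univ : Set Bool)).Countable := hXc.prod (Set.to_countable _)
    have hgood : ∀ x : O × Bool, x.1 ∉ X → ((F x ∩ {y | a < φ y}).Nonempty ↔ a < max 0 (φ (e γ))) := by
      rintro ⟨t, b⟩ ht
      have hdis : Disjoint (D (p t)) N := by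
        by_contra h; exact ht h
      cases b
      · apply simp_values e _ _ γ (p t).2.1.2 φ
        intro i hi hne
        by_contra hi0
        exact Set.disjoint_left.mp hdis (Or.inl (by simpa using ⟨hi, hne⟩)) hi0
      · apply simp_values e _ _ γ (p t).2.2.1.2 φ
        intro i hi hne
        by_contra hi0
        exact Set.disjoint_left.mp hdis (Or.inr (by simpa using ⟨hi, hne⟩)) hi0
    by_cases hac : a < max 0 (φ (e γ))
    · right
      apply hXc'.mono
      intro x hx
      refine ⟨?_, trivial⟩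
      by_contra hxX
      exact hx ((hgood x hxX).mpr hac)
    · left
      apply hXc'.mono
      intro x hx
      refine ⟨?_, trivial⟩
      by_contra hxX
      exact hac ((hgood x hxX).mp hx)
  have hFc : ∀ t, F t ∈ tetra H := by
    rintro ⟨t, b⟩
    cases b
    · exact simp_tetra e _ _ (p t).2.1.1
    · exact simp_tetra e _ _ (p t).2.2.1.1
  have hmeas := hSC F hFc hFm (f γ) hB
  have hset : (fun x => f γ (ψ (F x))) ⁻¹' B = (Set.univ : Set O) ×ˢ {false} := by
    ext ⟨t, b⟩
    cases b
    · simp only [Set.mem_preimage, Set.mem_prod, Set.mem_univ, Set.mem_singleton_iff, and_self,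
        iff_true]
      exact (p t).2.2.2.1
    · simp only [Set.mem_preimage, Set.mem_prod, Set.mem_univ, Set.mem_singleton_iff,
        iff_false, Bool.true_eq_false, and_false]
      exact (p t).2.2.2.2
  rw [hset] at hmeas
  have hunc : ∀ b : Bool, ¬ ((Set.univ : Set O) ×ˢ ({b} : Set Bool)).Countable := by
    intro b hcount
    have : (Set.univ : Set O).Countable := by
      have h5 := hcount.image Prod.fst
      apply h5.mono
      intro t _
      exact ⟨(t, b), ⟨trivial, rfl⟩, rfl⟩
    exact Set.not_countable_univ this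
  rcases hmeas with h | h
  · exact hunc false h
  · apply hunc true
    apply h.mono
    rintro ⟨t, b⟩ ⟨_, hb⟩ hmem
    have hb1 : b = true := hb
    have hb2 : b = false := hmem.2
    rw [hb1] at hb2
    exact absurd hb2 (by simp)

theorem main_banach {A B C : Type} [DecidableEq (A ⊕ B ⊕ C)]
    (hA : ℵ₀ < #A) (hAB : #A < #B) (hBC : #B < #C)
    (e : A ⊕ B ⊕ C → H) (f : A ⊕ B ⊕ C → StrongDual ℝ H)
    (hef : ∀ i j, f i (e j) = if i = j then 1 else 0)
    (hN0 : ∀ φ : StrongDual ℝ H, {i | φ (e i) ≠ 0}.Countable) (O : Type) [LinearOrder O]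
    [WellFoundedLT O] (hc : ∀ t : O, (Set.Iio t).Countable) [Uncountable O]
    (ψ : Set H → H) (hψ : ∀ K ∈ tetra H, ψ K ∈ K) :
    letI := ccMS (O × Bool)
    ∃ F : O × Bool → Set H, (∀ t, F t ∈ tetra H) ∧ ScalarlyMeasurableMulti F ∧
        ¬ ScalarlyMeasurable (fun t => ψ (F t)) := by
  letI := ccMS (O × Bool)
  by_contra hcon
  push Not at hcon
  -- for each γ a countable exceptional set
  have hE : ∀ γ : A ⊕ B ⊕ C, ∃ E : Set (A ⊕ B ⊕ C), E.Countable ∧
      ∀ (b b' : Bool) (T T' : Finset (A ⊕ B ⊕ C)), T.card = 3 → T'.card = 3 → γ ∈ T → γ ∈ T' →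
      Disjoint ((T.erase γ : Finset (A ⊕ B ⊕ C)) : Set (A ⊕ B ⊕ C)) E →
      Disjoint ((T'.erase γ : Finset (A ⊕ B ⊕ C)) : Set (A ⊕ B ⊕ C)) E →
      f γ (ψ (simp' e b T)) = f γ (ψ (simp' e b' T')) := by
    intro γ
    have h1 : ∀ r : ℚ, ∃ E : Set (A ⊕ B ⊕ C), E.Countable ∧
        ∀ (b b' : Bool) (T T' : Finset (A ⊕ B ⊕ C)), T.card = 3 → T'.card = 3 → γ ∈ T → γ ∈ T' →
        Disjoint ((T.erase γ : Finset (A ⊕ B ⊕ C)) : Set (A ⊕ B ⊕ C)) E →
        Disjoint ((T'.erase γ : Finset (A ⊕ B ⊕ C)) : Set (A ⊕ B ⊕ C)) E →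
        f γ (ψ (simp' e b T)) ≤ (r : ℝ) → f γ (ψ (simp' e b' T')) ≤ (r : ℝ) := by
      intro r
      rcases key e f hN0 O hc ψ hcon γ (Set.Iic (r : ℝ)) measurableSet_Iic with ⟨E, hE1, hE2⟩ | ⟨E, hE1, hE2⟩
      · refine ⟨E, hE1, fun b b' T T' hc1 hc2 hT hT' hd hd' hle => ?_⟩
        exact absurd hle (hE2 b T hc1 hT hd)
      · refine ⟨E, hE1, fun b b' T T' hc1 hc2 hT hT' hd hd' hle => ?_⟩
        exact hE2 b' T' hc2 hT' hd'
    choose E hE1 hE2 using h1
    refine ⟨⋃ r, E r, countable_iUnion hE1, ?_⟩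
    have hle : ∀ (b b' : Bool) (T T' : Finset (A ⊕ B ⊕ C)), T.card = 3 → T'.card = 3 → γ ∈ T → γ ∈ T' →
      Disjoint ((T.erase γ : Finset (A ⊕ B ⊕ C)) : Set (A ⊕ B ⊕ C)) (⋃ r, E r) →
      Disjoint ((T'.erase γ : Finset (A ⊕ B ⊕ C)) : Set (A ⊕ B ⊕ C)) (⋃ r, E r) →
      f γ (ψ (simp' e b' T')) ≤ f γ (ψ (simp' e b T)) := by
      intro b b' T T' hc1 hc2 hT hT' hd hd'
      by_contra hlt
      obtain ⟨r, hr1, hr2⟩ := exists_rat_btwn (not_le.mp hlt)
      have h3 := hE2 r b b' T T' hc1 hc2 hT hT' (hd.mono_right (subset_iUnion E r))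
        (hd'.mono_right (subset_iUnion E r)) hr1.le
      exact absurd h3 (not_le.mpr hr2)
    intro b b' T T' hc1 hc2 hT hT' hd hd'
    exact le_antisymm (hle b' b T' T hc2 hc1 hT' hT hd' hd) (hle b b' T T' hc1 hc2 hT hT' hd hd')
  choose E hE1 hE2 using hE
  obtain ⟨a, b, c, hab, hac, hbc, h1, h2, h3, h4, h5, h6⟩ := free_triple hA hAB hBC E hE1
  set T : Finset (A ⊕ B ⊕ C) := {a, b, c} with hT
  have hTc : T.card = 3 := Finset.card_eq_three.mpr ⟨a, b, c, hab, hac, hbc, rfl⟩
  have hdis : ∀ i ∈ T, Disjoint ((T.erase i : Finset (A ⊕ B ⊕ C)) : Set (A ⊕ B ⊕ C)) (E i) := by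
    intro i hi
    rw [Set.disjoint_left]
    intro j hj hjE
    have hj' : j ∈ T ∧ j ≠ i := by simpa using hj
    obtain ⟨hjT, hne⟩ := hj'
    rw [hT] at hi hjT
    simp only [Finset.mem_insert, Finset.mem_singleton] at hi hjT
    rcases hi with rfl | rfl | rfl <;> rcases hjT with rfl | rfl | rfl <;>
      first | exact hne rfl | contradiction
  have hco : ∀ i ∈ T, f i (ψ (simp' e false T)) = f i (ψ (simp' e true T)) :=
    fun i hi => hE2 i false true T T hTc hTc hi hi (hdis i hi) (hdis i hi)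
  have hs := Finset.sum_congr rfl hco
  have hl := (sum_coord e f hef T hTc _).1 (hψ _ (simp_tetra e false T hTc))
  have hr := (sum_coord e f hef T hTc _).2 (hψ _ (simp_tetra e true T hTc))
  linarith

end main

end Pool.Agent.Y175.SC
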